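import Pool.Agent.H11.TV.Final

set_option autoImplicit false

/-!
# The Tverberg-Vrecica theorem for `k = d - 2`
-/

namespace Pool.Agent.Results.MP_6e2a57_co.CodimTwo

/-- The Tverberg-Vrecica statement holds whenever `k = d - 2`, for all `d ≥ 2` and all positive
integers `r_0, ..., r_k` (written with `d = k + 2`). -/
theorem result :
    ∀ (d k : ℕ), d = k + 2 → ∀ (r : Fin (k + 1) → ℕ), (∀ i, 1 ≤ r i) →
    ∀ (S : Fin (k + 1) → Finset (EuclideanSpace ℝ (Fin d))),
      (∀ i, (S i).card = (r i - 1) * (d - k + 1) + 1) →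
      ∃ c : Fin (k + 1) → EuclideanSpace ℝ (Fin d) → ℕ,
        (∀ i, ∀ x ∈ S i, c i x < r i) ∧
        (∀ i, ∀ j < r i, ∃ x ∈ S i, c i x = j) ∧
        ∃ D : AffineSubspace ℝ (EuclideanSpace ℝ (Fin d)),
          Module.finrank ℝ D.direction = k ∧
          ∀ i, ∀ j < r i,
            ((D : Set (EuclideanSpace ℝ (Fin d))) ∩
              convexHull ℝ {x | x ∈ S i ∧ c i x = j}).Nonempty := by
  rintro d k rfl r hr S hS
  refine Pool.Agent.H11.TV.tv_final k r hr S fun i => ?_
  rw [hS i, show k + 2 - k + 1 = 3 by omega]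

end Pool.Agent.Results.MP_6e2a57_co.CodimTwo
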